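import Pool.Agent.Helper99.SI.StB

set_option autoImplicit false

namespace Pool.Agent.Helper79.SI

open Pool.Agent.Helper99.SI NNReal

/-- sum of the absolute values of the coefficients -/
noncomputable def nrm {n : ℕ} (p : W n →₀ ℂ) : ℝ≥0 := ∑ μ ∈ p.support, ‖p μ‖₊

lemma nrm_sub {n : ℕ} (p : W n →₀ ℂ) (s : Finset (W n)) (h : p.support ⊆ s) :
    nrm p = ∑ μ ∈ s, ‖p μ‖₊ := by
  classical
  unfold nrm
  refine Finset.sum_subset h fun μ _ hμ => ?_
  rw [Finsupp.notMem_support_iff.mp hμ, nnnorm_zero]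

lemma nrm_add {n : ℕ} (p q : W n →₀ ℂ) : nrm (p + q) ≤ nrm p + nrm q := by
  classical
  rw [nrm_sub (p + q) (p.support ∪ q.support) Finsupp.support_add,
    nrm_sub p (p.support ∪ q.support) Finset.subset_union_left,
    nrm_sub q (p.support ∪ q.support) Finset.subset_union_right, ← Finset.sum_add_distrib]
  exact Finset.sum_le_sum fun μ _ => by
    rw [Finsupp.add_apply]; exact nnnorm_add_le _ _

lemma nrm_zero {n : ℕ} : nrm (0 : W n →₀ ℂ) = 0 := by
  unfold nrm; simp

lemma nrm_smul {n : ℕ} (c : ℂ) (p : W n →₀ ℂ) : nrm (c • p) = ‖c‖₊ * nrm p := by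
  rw [nrm_sub (c • p) p.support Finsupp.support_smul]
  unfold nrm
  rw [Finset.mul_sum]
  exact Finset.sum_congr rfl fun μ _ => by
    rw [Finsupp.smul_apply, smul_eq_mul, nnnorm_mul]

lemma nrm_eq_zero {n : ℕ} (p : W n →₀ ℂ) (h : nrm p = 0) : p = 0 := by
  unfold nrm at h
  ext μ
  by_cases hμ : μ ∈ p.support
  · have := (Finset.sum_eq_zero_iff.mp h) μ hμ
    simpa using this
  · simpa using hμ

lemma nrm_sum {n : ℕ} {ι : Type} (s : Finset ι) (c : ι → ℂ) (q : ι → W n →₀ ℂ) :
    nrm (∑ i ∈ s, c i • q i) ≤ ∑ i ∈ s, ‖c i‖₊ * nrm (q i) := by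
  classical
  induction s using Finset.induction_on with
  | empty => simp [nrm_zero]
  | insert a s ha ih =>
    rw [Finset.sum_insert ha, Finset.sum_insert ha]
    exact (nrm_add _ _).trans (add_le_add (nrm_smul _ _).le ih)

lemma nrm_map {n : ℕ} (p : W n →₀ ℂ) (ν : W n) : nrm (p.mapDomain fun μ => μ ++ ν) = nrm p := by
  classical
  have hinj : Function.Injective fun μ : W n => μ ++ ν := fun a b h => List.append_cancel_right h
  unfold nrm
  rw [Finsupp.mapDomain_support_of_injective hinj, Finset.sum_image fun a _ b _ h => hinj h]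
  exact Finset.sum_congr rfl fun μ _ => by
    rw [Finsupp.mapDomain_apply hinj]

section

variable {n : ℕ} {L : Type} [Ring L] [Algebra ℂ L] [StarRing L] [StarModule ℂ L] [Nontrivial L]

lemma nrm_mulw (h1 : StA1) (h3 : StA3) (D : Sys n L) (s : L) (hs : s ∈ D.S) (ν : W n) :
    nrm (D.cf (s * D.w ν)) = nrm (D.cf s) ∧ s * D.w ν ∈ D.S := by
  obtain ⟨_, b2, b3, b4⟩ := h3 n L D
  obtain ⟨a1, _⟩ := h1 n L D
  have e : s * D.w ν = D.emb ((D.cf s).mapDomain fun μ => μ ++ ν) := by
    conv_lhs => rw [← b3 s hs]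
    unfold Sys.emb
    rw [Finsupp.linearCombination_mapDomain, Finsupp.linearCombination_apply, Finsupp.linearCombination_apply,
      Finsupp.sum, Finsupp.sum, Finset.sum_mul]
    exact Finset.sum_congr rfl fun μ _ => by
      rw [Function.comp_apply, a1, smul_mul_assoc]
  rw [e]
  exact ⟨by rw [b2, nrm_map], b4 _⟩

/-- the maximum over the words of length `k` -/
noncomputable def MM (D : Sys n L) (k : ℕ) (y : L) : ℝ≥0 :=
  Finset.univ.sup fun κ : Fin k → Fin n => nrm (D.cf (y * D.w (List.ofFn κ)))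

def Lev (D : Sys n L) (l : ℕ) (y : L) : Prop := ∀ κ : W n, l ≤ κ.length → y * D.w κ ∈ D.S

lemma le_MM (D : Sys n L) (k : ℕ) (y : L) (κ : W n) (hκ : κ.length = k) :
    nrm (D.cf (y * D.w κ)) ≤ MM D k y := by
  subst hκ
  unfold MM
  have := Finset.le_sup (f := fun κ' : Fin κ.length → Fin n => nrm (D.cf (y * D.w (List.ofFn κ'))))
    (Finset.mem_univ κ.get)
  simpa [List.ofFn_get] using this

lemma claimA (h1 : StA1) (h3 : StA3) (D : Sys n L) (l : ℕ) (y : L) (hl : Lev D l y) (κ : W n)
    (hκ : l ≤ κ.length) : nrm (D.cf (y * D.w κ)) ≤ MM D l y := by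
  obtain ⟨a1, _⟩ := h1 n L D
  have ht : (κ.take l).length = l := by rw [List.length_take]; omega
  have e : y * D.w κ = (y * D.w (κ.take l)) * D.w (κ.drop l) := by
    rw [mul_assoc, ← a1, List.take_append_drop]
  rw [e, (nrm_mulw h1 h3 D _ (hl _ ht.ge) _).1]
  exact le_MM D l y _ ht

lemma MM_eq (h1 : StA1) (h3 : StA3) (D : Sys n L) (i0 : Fin n) (l k : ℕ) (y : L) (hl : Lev D l y)
    (hk : l ≤ k) : MM D k y = MM D l y := by
  obtain ⟨a1, _⟩ := h1 n L D
  apply le_antisymm
  · unfold MM
    apply Finset.sup_le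
    intro κ _
    exact claimA h1 h3 D l y hl _ (by rw [List.length_ofFn]; exact hk)
  · conv_lhs => unfold MM
    apply Finset.sup_le
    intro κ _
    have := (nrm_mulw h1 h3 D _ (hl (List.ofFn κ) (by rw [List.length_ofFn])) (List.replicate (k - l) i0)).1
    rw [← this, mul_assoc, ← a1]
    exact le_MM D k y _ (by rw [List.length_append, List.length_ofFn, List.length_replicate]; omega)

end

theorem hB1 (h1 : StA1) (h2 : StA3) (h3 : StA4) : StB1 := by
  intro n L _ _ _ _ _ D
  classical
  have hn : 0 < n := by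
    rcases Nat.eq_zero_or_pos n with h | h
    · exfalso
      subst h
      have := D.comp
      simp at this
    · exact h
  let i0 : Fin n := ⟨0, hn⟩
  choose lev c hlc using h3 n L D
  have hlev : ∀ y, Lev D (lev y) y := fun y κ hκ => (hlc y κ hκ).1
  obtain ⟨b1, b2, b3, b4⟩ := h2 n L D
  have hst : ∀ (y : L) (k : ℕ), lev y ≤ k → MM D k y = MM D (lev y) y := fun y k hk =>
    MM_eq h1 h2 D i0 _ _ y (hlev y) hk
  refine ⟨⟨fun y => (MM D (lev y) y : ℝ), fun y => NNReal.coe_nonneg _, ?_, ?_, ?_, ?_⟩⟩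
  · intro y z
    rw [← NNReal.coe_add, NNReal.coe_le_coe]
    set k := max (lev (y + z)) (max (lev y) (lev z)) with hk
    rw [← hst (y + z) k (by omega), ← hst y k (by omega), ← hst z k (by omega)]
    conv_lhs => unfold MM
    apply Finset.sup_le
    intro κ _
    rw [add_mul, map_add]
    exact (nrm_add _ _).trans (add_le_add (le_MM D k y _ List.length_ofFn) (le_MM D k z _ List.length_ofFn))
  · intro a y
    set k := max (lev (a • y)) (lev y) with hk
    rw [← hst (a • y) k (by omega), ← hst y k (by omega)]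
    have : MM D k (a • y) ≤ ‖a‖₊ * MM D k y := by
      conv_lhs => unfold MM
      apply Finset.sup_le
      intro κ _
      rw [smul_mul_assoc, map_smul, nrm_smul]
      exact mul_le_mul_right (le_MM D k y _ List.length_ofFn) _
    exact_mod_cast this
  · intro y z
    set k := max (lev (y * z)) (max (lev y + c z) (lev z)) with hk
    have : MM D (lev (y * z)) (y * z) ≤ MM D (lev y) y * MM D (lev z) z := by
      rw [← hst (y * z) k (by omega), ← hst z k (by omega)]
      conv_lhs => unfold MM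
      apply Finset.sup_le
      intro κ _
      have hlen : (List.ofFn κ).length = k := List.length_ofFn
      obtain ⟨hS, hc⟩ := hlc z (List.ofFn κ) (by rw [hlen]; omega)
      have e : D.cf (y * z * D.w (List.ofFn κ)) =
          ∑ μ ∈ (D.cf (z * D.w (List.ofFn κ))).support,
            (D.cf (z * D.w (List.ofFn κ))) μ • D.cf (y * D.w μ) := by
        have e1 : y * z * D.w (List.ofFn κ) = ∑ μ ∈ (D.cf (z * D.w (List.ofFn κ))).support,
            (D.cf (z * D.w (List.ofFn κ))) μ • (y * D.w μ) := by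
          rw [mul_assoc]
          conv_lhs => rw [← b3 _ hS]
          unfold Sys.emb
          rw [Finsupp.linearCombination_apply, Finsupp.sum, Finset.mul_sum]
          exact Finset.sum_congr rfl fun μ _ => by rw [mul_smul_comm]
        rw [e1, map_sum]
        exact Finset.sum_congr rfl fun μ _ => by rw [map_smul]
      rw [e]
      refine (nrm_sum _ _ _).trans ?_
      calc ∑ μ ∈ (D.cf (z * D.w (List.ofFn κ))).support,
            ‖(D.cf (z * D.w (List.ofFn κ))) μ‖₊ * nrm (D.cf (y * D.w μ))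
          ≤ ∑ μ ∈ (D.cf (z * D.w (List.ofFn κ))).support,
            ‖(D.cf (z * D.w (List.ofFn κ))) μ‖₊ * MM D (lev y) y := by
            refine Finset.sum_le_sum fun μ hμ => ?_
            have h5 := (hc μ (Finsupp.mem_support_iff.mp hμ)).1
            exact mul_le_mul_right (claimA h1 h2 D _ y (hlev y) μ (by omega)) _
        _ = MM D (lev y) y * nrm (D.cf (z * D.w (List.ofFn κ))) := by
            rw [← Finset.sum_mul, mul_comm]; rfl
        _ ≤ MM D (lev y) y * MM D k z := mul_le_mul_right (le_MM D k z _ hlen) _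
    exact_mod_cast this
  · intro y hy
    have hy' : MM D (lev y) y = 0 := by exact_mod_cast hy
    have h0 : ∀ κ : Fin (lev y) → Fin n, y * D.w (List.ofFn κ) = 0 := by
      intro κ
      have h6 : nrm (D.cf (y * D.w (List.ofFn κ))) = 0 := by
        have := le_MM D (lev y) y (List.ofFn κ) List.length_ofFn
        rw [hy'] at this
        exact le_antisymm this (by positivity)
      rw [← b3 _ (hlev y (List.ofFn κ) (by rw [List.length_ofFn])), nrm_eq_zero _ h6, map_zero]
    obtain ⟨_, _, _, _, a5⟩ := h1 n L D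
    calc y = y * 1 := (mul_one y).symm
      _ = 0 := by
        rw [← a5 (lev y), Finset.mul_sum]
        refine Finset.sum_eq_zero fun κ _ => ?_
        rw [← mul_assoc, h0, zero_mul]

end Pool.Agent.Helper79.SI
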