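import Pool.Agent.Helper99.SI.StF

set_option autoImplicit false

namespace Pool.Agent.Helper79.SI

open Pool.Agent.Helper99.SI

lemma mem_iff {ι : Type} (z : ι → ℂ) : Memℓp z 2 ↔ Summable fun i => ‖z i‖ ^ 2 := by
  rw [memℓp_gen_iff (by norm_num)]
  simp

theorem hF2 : StF2 := by
  intro n L _ _ _ _ _ D m J0 P s u hu
  have hG : ∀ w, P.G u w = 0 → w = 0 := by
    intro w hw
    have := P.Gge u hu w
    rw [hw, inner_zero_right, Complex.zero_re] at this
    have h2 : ‖w‖ = 0 := by nlinarith [norm_nonneg w]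
    exact norm_eq_zero.mp h2
  have hTT : ∀ z, P.TT s u z = 0 ↔ z - (s : ℂ) • P.Ph (u ^ P.n1) z = 0 := by
    intro z
    have e : P.TT s u z = P.G u (z - (s : ℂ) • P.Ph (u ^ P.n1) z) := rfl
    rw [e]
    exact ⟨fun h => hG _ h, fun h => by rw [h, map_zero]⟩
  have ht : 0 < u ^ P.n1 := pow_pos hu _
  have hK : ∀ z : L2 (Idx n m.r), P.TT s u z = 0 ↔ m.IsKer s (u ^ P.n1) (fun i => z i) := by
    intro z
    rw [hTT, sub_eq_zero]
    constructor
    · intro h i
      have h2 : z i = (s : ℂ) * (P.Ph (u ^ P.n1) z) i := by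
        conv_lhs => rw [h]
        rfl
      have h3 := P.Phs (u ^ P.n1) ht z i
      rw [h3] at h2
      exact h2
    · intro h
      apply lp.ext
      funext i
      have h3 := P.Phs (u ^ P.n1) ht z i
      have h4 : ((s : ℂ) • P.Ph (u ^ P.n1) z : L2 (Idx n m.r)) i = (s : ℂ) * (P.Ph (u ^ P.n1) z) i := rfl
      rw [h4, h3]
      exact h i
  have key : ∀ z : Idx n m.r → ℂ, (Summable fun i => ‖z i‖ ^ 2) → m.IsKer s (u ^ P.n1) z →
      ∃ z' : L2 (Idx n m.r), (∀ i, z' i = z i) ∧ P.TT s u z' = 0 := by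
    intro z hz hk
    refine ⟨⟨z, (mem_iff z).mpr hz⟩, fun i => rfl, ?_⟩
    rw [hK]
    exact hk
  refine ⟨⟨?_, ?_⟩, key⟩
  · intro h z hz hk
    obtain ⟨z', h1, h2⟩ := key z hz hk
    have h3 := h z' h2
    funext i
    rw [← h1 i, h3]
    rfl
  · intro h z hz
    have h1 := (hK z).mp hz
    have h2 : Summable fun i => ‖z i‖ ^ 2 := (mem_iff _).mp (lp.memℓp z)
    have h3 := h (fun i => z i) h2 h1
    apply lp.ext
    funext i
    exact congrFun h3 i

end Pool.Agent.Helper79.SI
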