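import Pool.Agent.Helper99.SI.StK

set_option autoImplicit false

namespace Pool.Agent.Helper79.SI

open Pool.Agent.Helper99.SI

lemma entry {X : Type} [AddCommGroup X] [Module ℂ X] {ι : Type} [DecidableEq ι] (e : Module.Basis ι ℂ X)
    (A : X →ₗ[ℂ] X) (v : X) (i : ι) (J : Finset ι) :
    (e.repr (A v)) i = ∑ k ∈ J, (e.repr (A (e k))) i * (e.repr v) k +
      ∑ k ∈ (e.repr v).support \ J, (e.repr (A (e k))) i * (e.repr v) k := by
  have h1 : v = ∑ k ∈ (e.repr v).support, (e.repr v) k • e k := by
    have := e.linearCombination_repr v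
    rw [Finsupp.linearCombination_apply, Finsupp.sum] at this
    exact this.symm
  have h2 : (e.repr (A v)) i = ∑ k ∈ (e.repr v).support, (e.repr (A (e k))) i * (e.repr v) k := by
    conv_lhs => rw [h1]
    rw [map_sum, map_sum, Finsupp.finset_sum_apply]
    refine Finset.sum_congr rfl fun k _ => ?_
    rw [map_smul, map_smul, Finsupp.smul_apply, smul_eq_mul, mul_comm]
  have h3 : ∑ k ∈ (e.repr v).support, (e.repr (A (e k))) i * (e.repr v) k =
      ∑ k ∈ (e.repr v).support ∪ J, (e.repr (A (e k))) i * (e.repr v) k := by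
    refine Finset.sum_subset Finset.subset_union_left fun k _ hk => ?_
    rw [Finsupp.notMem_support_iff.mp hk, mul_zero]
  rw [h2, h3, ← Finset.sum_sdiff (Finset.subset_union_right : J ⊆ (e.repr v).support ∪ J),
    Finset.union_sdiff_right, add_comm]

theorem hK4 : StK4 := by
  intro X _ _ ι _ e A B hAB J
  have h : ∀ i, (e.repr (A (B (e i)))) i = (e.repr (B (A (e i)))) i := by
    intro i
    have := LinearMap.congr_fun hAB (e i)
    simp only [LinearMap.comp_apply] at this
    rw [this]
  have hs : ∑ i ∈ J, (e.repr (A (B (e i)))) i = ∑ i ∈ J, (e.repr (B (A (e i)))) i :=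
    Finset.sum_congr rfl fun i _ => h i
  simp only [entry e A (B (e _)) _ J, entry e B (A (e _)) _ J, Finset.sum_add_distrib] at hs
  have hc : ∑ i ∈ J, ∑ k ∈ J, (e.repr (A (e k))) i * (e.repr (B (e i))) k =
      ∑ i ∈ J, ∑ k ∈ J, (e.repr (B (e k))) i * (e.repr (A (e i))) k := by
    rw [Finset.sum_comm]
    refine Finset.sum_congr rfl fun i _ => Finset.sum_congr rfl fun k _ => ?_
    rw [mul_comm]
  rw [hc] at hs
  exact add_left_cancel hs

end Pool.Agent.Helper79.SI
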