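import Pool.Agent.Helper99.SI.StT

set_option autoImplicit false

/-!
# Project SI, module T7: the system attached to two families
-/

namespace Pool.Agent.Helper79.SI

open Pool.Agent.Helper99.SI Pool.Agent.Helper92 Pool.Agent.Helper92.LV

theorem hT7 (h1 : StT1) (h2 : StT3) (h3 : StT5) (h4 : StT6) : StT7 := by
  intro n V E _ _ _ _ G L _ _ _ _ T hn hG hG2
  obtain ⟨-, h11, h12, h13, -⟩ := h1 n V E G L T (by omega)
  obtain ⟨m0, hm0⟩ := h2 n V E G L T hn hG hG2
  exact ⟨{ x := T.fE.e
           orth := h11
           comp := h12
           g := T.g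
           b := T.b
           gx := T.ge
           span := h13
           m0 := m0
           UL := hm0
           G1 := h3 n V E G L T hn hG hG2
           G2 := h4 n V E G L T hn hG hG2 }, rfl, rfl, rfl⟩

end Pool.Agent.Helper79.SI
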